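import Mathlib
import Pool.Agent.Helper70.StructureThm

set_option autoImplicit false

namespace Pool.Agent.Helper40.LD

open Finset Pool.Agent.Helper70
open scoped Classical

variable {V : Type} [Fintype V]

/-- every vertex of `A` has at least `2 d` neighbours of its own colour in `A` -/
def Dense (G : SimpleGraph V) {k : ℕ} (d : ℕ) (c : V → Fin k) (A : Finset V) : Prop :=
  ∀ v ∈ A, 2 * d ≤ (A.filter fun u => G.Adj u v ∧ c u = c v).card

/-- the union of all dense sets -/
noncomputable def core (G : SimpleGraph V) {k : ℕ} (d : ℕ) (c : V → Fin k) : Finset V :=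
  Finset.univ.filter fun v => ∃ A, Dense G d c A ∧ v ∈ A

lemma mem_core (G : SimpleGraph V) {k : ℕ} (d : ℕ) (c : V → Fin k) (v : V) :
    v ∈ core G d c ↔ ∃ A, Dense G d c A ∧ v ∈ A := by
  simp [core]

lemma subset_core {G : SimpleGraph V} {k : ℕ} {d : ℕ} {c : V → Fin k} {A : Finset V}
    (h : Dense G d c A) : A ⊆ core G d c := fun v hv => (mem_core G d c v).2 ⟨A, h, hv⟩

lemma core_count {G : SimpleGraph V} {k : ℕ} {d : ℕ} {c : V → Fin k} (v : V)
    (hv : v ∈ core G d c) :
    2 * d ≤ ((core G d c).filter fun u => G.Adj u v ∧ c u = c v).card := by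
  obtain ⟨A, hA, hvA⟩ := (mem_core G d c v).1 hv
  exact (hA v hvA).trans (Finset.card_le_card (Finset.filter_subset_filter _ (subset_core hA)))

lemma dense_union {G : SimpleGraph V} {k : ℕ} {d : ℕ} {c : V → Fin k} {A B : Finset V}
    (hA : Dense G d c A) (hB : Dense G d c B) : Dense G d c (A ∪ B) := by
  intro v hv
  rw [Finset.mem_union] at hv
  rcases hv with hv | hv
  · exact (hA v hv).trans (Finset.card_le_card (Finset.filter_subset_filter _ Finset.subset_union_left))
  · exact (hB v hv).trans (Finset.card_le_card (Finset.filter_subset_filter _ Finset.subset_union_right))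

lemma dense_of_closed {G : SimpleGraph V} {k : ℕ} {d : ℕ} {c : V → Fin k} {A : Finset V}
    (hA : A ⊆ core G d c) (hcl : ∀ u ∈ A, ∀ v ∈ core G d c, G.Adj u v → v ∈ A) :
    Dense G d c A := by
  intro v hv
  refine (core_count v (hA hv)).trans (Finset.card_le_card ?_)
  intro u hu
  rw [Finset.mem_filter] at hu ⊢
  exact ⟨hcl v hv u hu.1 hu.2.1.symm, hu.2⟩

/-- outside the core the monochromatic graph is degenerate -/
lemma exists_degen (G : SimpleGraph V) {k d : ℕ} (hd : 1 ≤ d) (c : V → Fin k) :
    ∃ g : V → Fin (2 * d), ∀ u v, u ∉ core G d c → v ∉ core G d c → G.Adj u v → c u = c v →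
      g u ≠ g v := by
  have key : ∀ S : Finset V, (∀ v ∈ S, v ∉ core G d c) → ∃ g : V → Fin (2 * d),
      ∀ u ∈ S, ∀ v ∈ S, G.Adj u v → c u = c v → g u ≠ g v := by
    intro S
    induction S using Finset.strongInduction with
    | _ S ih =>
      intro hS
      by_cases hne : S.Nonempty
      · have hnd : ¬ Dense G d c S := by
          intro h
          obtain ⟨v, hv⟩ := hne
          exact hS v hv ((mem_core G d c v).2 ⟨S, h, hv⟩)
        unfold Dense at hnd
        push Not at hnd
        obtain ⟨v, hv, hlt⟩ := hnd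
        obtain ⟨g, hg⟩ := ih (S.erase v) (Finset.erase_ssubset hv)
          (fun u hu => hS u (Finset.mem_of_mem_erase hu))
        have hfree : ∃ a : Fin (2 * d), a ∉ (S.filter fun u => G.Adj u v ∧ c u = c v).image g := by
          by_contra hcon
          push Not at hcon
          have h1 : (Finset.univ : Finset (Fin (2 * d))) ⊆
            (S.filter fun u => G.Adj u v ∧ c u = c v).image g := fun a _ => hcon a
          have h2 := Finset.card_le_card h1
          have h3 := Finset.card_image_le (s := (S.filter fun u => G.Adj u v ∧ c u = c v)) (f := g)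
          rw [Finset.card_univ, Fintype.card_fin] at h2
          omega
        obtain ⟨a, ha⟩ := hfree
        have ha' : ∀ u ∈ S, G.Adj u v → c u = c v → g u ≠ a := by
          intro u hu h1 h2 h3
          exact ha (Finset.mem_image.2 ⟨u, Finset.mem_filter.2 ⟨hu, h1, h2⟩, h3⟩)
        refine ⟨Function.update g v a, ?_⟩
        intro u hu w hw huw hc
        by_cases h1 : u = v
        · subst h1
          have hwu : w ≠ u := huw.ne'
          rw [Function.update_self, Function.update_of_ne hwu]
          exact (ha' w hw huw.symm hc.symm).symm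
        · by_cases h2 : w = v
          · subst h2
            rw [Function.update_self, Function.update_of_ne h1]
            exact ha' u hu huw hc
          · rw [Function.update_of_ne h1, Function.update_of_ne h2]
            exact hg u (Finset.mem_erase.2 ⟨h1, hu⟩) w (Finset.mem_erase.2 ⟨h2, hw⟩) huw hc
      · rw [Finset.not_nonempty_iff_eq_empty] at hne
        subst hne
        exact ⟨fun _ => ⟨0, by omega⟩, by simp⟩
  obtain ⟨g, hg⟩ := key (Finset.univ.filter fun v => v ∉ core G d c) (by simp)
  refine ⟨g, fun u v hu hv h1 h2 => hg u (by simpa using hu) v (by simpa using hv) h1 h2⟩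

/-- a dense set carries many monochromatic edges -/
lemma dense_edges (G : SimpleGraph V) {k d : ℕ} (c : V → Fin k) (A : Finset V)
    (h : Dense G d c A) : d * A.card ≤ (monoX G A c).card := by
  let M : SimpleGraph V :=
    { Adj := fun u v => (G.Adj u v ∧ c u = c v) ∧ u ∈ A ∧ v ∈ A
      symm := ⟨fun u v h => ⟨⟨h.1.1.symm, h.1.2.symm⟩, h.2.2, h.2.1⟩⟩
      loopless := ⟨fun v h => h.1.1.ne rfl⟩ }
  have h1 := M.sum_degrees_eq_twice_card_edges
  have h2 : M.edgeFinset = monoX G A c := by
    ext e
    induction e using Sym2.ind with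
    | _ u v =>
      rw [mk_mem_monoX, SimpleGraph.mem_edgeFinset, SimpleGraph.mem_edgeSet]
  have h3 : ∀ v ∈ A, 2 * d ≤ M.degree v := by
    intro v hv
    refine (h v hv).trans ?_
    rw [← SimpleGraph.card_neighborFinset_eq_degree]
    apply Finset.card_le_card
    intro u hu
    rw [Finset.mem_filter] at hu
    rw [SimpleGraph.mem_neighborFinset]
    exact ⟨⟨hu.2.1.symm, hu.2.2.symm⟩, hv, hu.1⟩
  have h4 : A.card * (2 * d) ≤ ∑ v, M.degree v := by
    calc A.card * (2 * d) = ∑ v ∈ A, 2 * d := by rw [Finset.sum_const, smul_eq_mul]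
      _ ≤ ∑ v ∈ A, M.degree v := Finset.sum_le_sum h3
      _ ≤ ∑ v, M.degree v := Finset.sum_le_sum_of_subset (Finset.subset_univ _)
  rw [h1, h2] at h4
  nlinarith

/-- a given set is dense with small probability -/
lemma prob_dense (G : SimpleGraph V) {k d : ℕ} {q : ℝ} (hq : 1 < q) (x : (V → Fin k) → ℝ)
    (hx0 : ∀ c, 0 ≤ x c)
    (hsp : ∀ W : Finset (Sym2 V), ∑ c with W ⊆ monoE G c, x c ≤ (q⁻¹) ^ W.card) (A : Finset V) :
    ∑ c with Dense G d c A, x c ≤ (k * (q⁻¹) ^ d) ^ A.card := by
  have hq0 : 0 < q := by linarith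
  have h1 := exp_moment G hq0 x hx0 hsp A
  have h2 : (∑ c with Dense G d c A, x c) * q ^ (d * A.card) ≤ (k : ℝ) ^ A.card := by
    refine le_trans ?_ h1
    rw [Finset.sum_mul]
    calc ∑ c with Dense G d c A, x c * q ^ (d * A.card)
        ≤ ∑ c with Dense G d c A, x c * q ^ (monoX G A c).card := by
          apply Finset.sum_le_sum
          intro c hc
          apply mul_le_mul_of_nonneg_left _ (hx0 c)
          exact pow_le_pow_right₀ hq.le (dense_edges G c A (Finset.mem_filter.1 hc).2)
      _ ≤ ∑ c, x c * q ^ (monoX G A c).card := by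
          apply Finset.sum_le_sum_of_subset_of_nonneg (Finset.filter_subset _ _)
          intro c _ _
          exact mul_nonneg (hx0 c) (pow_nonneg hq0.le _)
  rw [mul_pow, ← pow_mul, inv_pow]
  rw [← div_eq_mul_inv, le_div_iff₀ (pow_pos hq0 _)]
  exact h2

/-- the union bound -/
lemma union_bound {ι Om : Type*} [Fintype Om] (x : Om → ℝ) (hx : ∀ ω, 0 ≤ x ω) (S : Finset ι)
    (E : Om → Prop) (F : ι → Om → Prop) [DecidablePred E] [∀ i, DecidablePred (F i)] (h : ∀ ω, E ω → ∃ i ∈ S, F i ω) :
    ∑ ω with E ω, x ω ≤ ∑ i ∈ S, ∑ ω with F i ω, x ω := by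
  simp only [Finset.sum_filter]
  rw [Finset.sum_comm]
  apply Finset.sum_le_sum
  intro ω _
  split_ifs with hE
  · obtain ⟨i, hi, hF⟩ := h ω hE
    refine le_trans ?_ (Finset.single_le_sum (f := fun i => if F i ω then x ω else 0)
      (fun i _ => by split_ifs <;> [exact hx ω; exact le_refl 0]) hi)
    simp [hF]
  · apply Finset.sum_nonneg
    intro i _
    split_ifs
    · exact hx ω
    · exact le_refl 0

end Pool.Agent.Helper40.LD
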