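import Mathlib
import Pool.Agent.Helper40.LD.Dense

set_option autoImplicit false

namespace Pool.Agent.Helper40.LD

open Finset Pool.Agent.Helper70
open scoped Classical

variable {V : Type} [Fintype V]

/-- sets that can be grown from `b` by adding neighbours -/
inductive Conn (G : SimpleGraph V) (b : V) : Finset V → Prop
  | base : Conn G b {b}
  | step (A : Finset V) (u v : V) : Conn G b A → u ∈ A → G.Adj u v → Conn G b (insert v A)

lemma exists_comp (G : SimpleGraph V) (b : V) (S : Finset V) (hb : b ∈ S) :
    ∃ A, Conn G b A ∧ A ⊆ S ∧ ∀ u ∈ A, ∀ v ∈ S, G.Adj u v → v ∈ A := by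
  obtain ⟨A, hA, hmax⟩ := Finset.exists_max_image
    (Finset.univ.filter fun A : Finset V => Conn G b A ∧ A ⊆ S) (fun A => A.card)
    ⟨{b}, by simp [hb, Conn.base]⟩
  rw [Finset.mem_filter] at hA
  refine ⟨A, hA.2.1, hA.2.2, fun u hu v hv huv => ?_⟩
  by_contra hvA
  have h1 := hmax (insert v A) (by
    rw [Finset.mem_filter]
    exact ⟨Finset.mem_univ _, Conn.step A u v hA.2.1 hu huv, Finset.insert_subset hv hA.2.2⟩)
  rw [Finset.card_insert_of_notMem hvA] at h1
  omega

lemma conn_mem {G : SimpleGraph V} {b : V} {A : Finset V} (h : Conn G b A) : b ∈ A := by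
  induction h with
  | base => simp
  | step A u v _ _ _ ih => exact Finset.mem_insert_of_mem ih

lemma conn_subset {G : SimpleGraph V} {b : V} {A A' S : Finset V} (hA' : Conn G b A')
    (hbA : b ∈ A) (hA'S : A' ⊆ S) (hcl : ∀ u ∈ A, ∀ v ∈ S, G.Adj u v → v ∈ A) : A' ⊆ A := by
  induction hA' with
  | base => simpa using hbA
  | step A0 u v _ hu huv ih =>
    have h0 : A0 ⊆ A := ih ((Finset.subset_insert _ _).trans hA'S)
    exact Finset.insert_subset (hcl u (h0 hu) v (hA'S (Finset.mem_insert_self _ _)) huv) h0

/-- connected sets containing `b`, weighted by `(1 / (4 (Δ + 1))) ^ |A|`, have total weight at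
most one -/
lemma conn_count (G : SimpleGraph V) {Δ : ℕ} (hΔ : ∀ v, (G.neighborFinset v).card ≤ Δ) (b : V) :
    ∑ A with Conn G b A, (1 / (4 * ((Δ : ℝ) + 1))) ^ A.card ≤ 1 := by
  set α : ℝ := 1 / (2 * ((Δ : ℝ) + 1)) with hα
  have hΔ0 : (0 : ℝ) ≤ Δ := Nat.cast_nonneg _
  have hα0 : 0 < α := by positivity
  have hα1 : α ≤ 1 := by
    rw [hα, div_le_one (by positivity)]
    linarith
  have hβ0 : 0 ≤ 1 - α := by linarith
  set w : Finset V → ℝ := fun S => α ^ S.card * (1 - α) ^ (Fintype.card V - S.card) with hw
  have hw0 : ∀ S, 0 ≤ w S := fun S => mul_nonneg (pow_nonneg hα0.le _) (pow_nonneg hβ0 _)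
  have hwsum : ∑ S, w S = 1 := by
    have h := Finset.sum_pow_mul_eq_add_pow α (1 - α) (Finset.univ : Finset V)
    rw [Finset.powerset_univ, Finset.card_univ] at h
    rw [hw]
    simp only at h ⊢
    rw [h]
    simp
  set ev : Finset V → Finset (Finset V) := fun A =>
    Finset.univ.filter fun S => A ⊆ S ∧ ∀ u ∈ A, ∀ v ∈ S, G.Adj u v → v ∈ A with hev
  have hdisj : ∀ A ∈ (Finset.univ.filter fun A => Conn G b A), ∀ A' ∈ (Finset.univ.filter fun A => Conn G b A),
      A ≠ A' → Disjoint (ev A) (ev A') := by
    intro A hA A' hA' hne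
    rw [Finset.mem_filter] at hA hA'
    rw [Finset.disjoint_left]
    intro S hS hS'
    simp only [hev, Finset.mem_filter, Finset.mem_univ, true_and] at hS hS'
    exact hne (Finset.Subset.antisymm (conn_subset hA.2 (conn_mem hA'.2) hS.1 hS'.2)
      (conn_subset hA'.2 (conn_mem hA.2) hS'.1 hS.2))
  have hlow : ∀ A : Finset V, (1 / (4 * ((Δ : ℝ) + 1))) ^ A.card ≤ ∑ S ∈ ev A, w S := by
    intro A
    set bd : Finset V := (Finset.univ.filter fun v => v ∉ A ∧ ∃ u ∈ A, G.Adj u v) with hbd
    set R : Finset V := Finset.univ \ (A ∪ bd) with hR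
    have hAbd : Disjoint A bd := by
      rw [Finset.disjoint_left]
      intro v hv hv'
      rw [hbd, Finset.mem_filter] at hv'
      exact hv'.2.1 hv
    have hcard : Fintype.card V = A.card + bd.card + R.card := by
      rw [← Finset.card_union_of_disjoint hAbd, hR, ← Finset.card_univ]
      rw [Finset.card_sdiff_of_subset (Finset.subset_univ _)]
      have := Finset.card_le_card (Finset.subset_univ (A ∪ bd))
      omega
    have hbdcard : bd.card ≤ A.card * Δ := by
      have h1 : bd ⊆ A.biUnion fun u => G.neighborFinset u := by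
        intro v hv
        rw [hbd, Finset.mem_filter] at hv
        obtain ⟨_, _, u, hu, huv⟩ := hv
        exact Finset.mem_biUnion.2 ⟨u, hu, by simpa using huv⟩
      exact (Finset.card_le_card h1).trans (Finset.card_biUnion_le_card_mul _ _ _ fun u _ => hΔ u)
    have hRA : ∀ T ∈ R.powerset, Disjoint A T := by
      intro T hT
      rw [Finset.mem_powerset] at hT
      rw [Finset.disjoint_left]
      intro v hv hv'
      have := hT hv'
      rw [hR, Finset.mem_sdiff, Finset.mem_union] at this
      tauto
    have h1 : ∑ T ∈ R.powerset, w (A ∪ T) ≤ ∑ S ∈ ev A, w S := by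
      rw [← Finset.sum_image (f := w) (g := fun T => A ∪ T) (s := R.powerset)]
      · apply Finset.sum_le_sum_of_subset_of_nonneg
        · intro S hS
          rw [Finset.mem_image] at hS
          obtain ⟨T, hT, rfl⟩ := hS
          rw [Finset.mem_powerset] at hT
          rw [hev]
          simp only [Finset.mem_filter, Finset.mem_univ, true_and]
          refine ⟨Finset.subset_union_left, ?_⟩
          intro u hu v hv huv
          rw [Finset.mem_union] at hv
          rcases hv with hv | hv
          · exact hv
          · by_contra hvA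
            have := hT hv
            rw [hR, Finset.mem_sdiff, Finset.mem_union, hbd, Finset.mem_filter] at this
            exact this.2 (Or.inr ⟨Finset.mem_univ _, hvA, u, hu, huv⟩)
        · intro S _ _
          exact hw0 S
      · intro T hT T' hT' h
        have hT1 := hRA T (by simpa using hT)
        have hT1' := hRA T' (by simpa using hT')
        simp only at h
        have e1 : T = (A ∪ T) \ A := by
          rw [Finset.union_sdiff_cancel_left hT1]
        have e2 : T' = (A ∪ T') \ A := by
          rw [Finset.union_sdiff_cancel_left hT1']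
        rw [e1, e2, h]
    refine le_trans ?_ h1
    have h2 : ∑ T ∈ R.powerset, w (A ∪ T) = α ^ A.card * (1 - α) ^ bd.card := by
      have h3 : ∀ T ∈ R.powerset, w (A ∪ T) = α ^ A.card * (1 - α) ^ bd.card *
          (α ^ T.card * (1 - α) ^ (R.card - T.card)) := by
        intro T hT
        have hTc := Finset.card_le_card (Finset.mem_powerset.1 hT)
        rw [hw]
        simp only
        rw [Finset.card_union_of_disjoint (hRA T hT), hcard]
        have : A.card + bd.card + R.card - (A.card + T.card) = bd.card + (R.card - T.card) := by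
          omega
        rw [this, pow_add, pow_add]
        ring
      rw [Finset.sum_congr rfl h3, ← Finset.mul_sum, Finset.sum_pow_mul_eq_add_pow]
      simp
    rw [h2]
    have h4 : (1 - α) ^ (A.card * Δ) ≤ (1 - α) ^ bd.card :=
      pow_le_pow_of_le_one hβ0 (by linarith) hbdcard
    have h5 : (1 : ℝ) / 2 ≤ (1 - α) ^ Δ := by
      have h6 := one_add_mul_le_pow (a := -α) (by linarith) Δ
      have h7 : (Δ : ℝ) * α ≤ 1 / 2 := by
        rw [hα, mul_one_div, div_le_iff₀ (by positivity)]
        linarith
      have h8 : 1 + (Δ : ℝ) * (-α) = 1 - Δ * α := by ring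
      rw [h8] at h6
      have h9 : (1 + -α) = 1 - α := by ring
      rw [h9] at h6
      linarith
    calc (1 / (4 * ((Δ : ℝ) + 1))) ^ A.card = (α * (1 / 2)) ^ A.card := by
          congr 1
          rw [hα]
          field_simp
          norm_num
      _ = α ^ A.card * (1 / 2) ^ A.card := by rw [mul_pow]
      _ ≤ α ^ A.card * ((1 - α) ^ Δ) ^ A.card := by
          apply mul_le_mul_of_nonneg_left _ (pow_nonneg hα0.le _)
          exact pow_le_pow_left₀ (by norm_num) h5 _
      _ = α ^ A.card * (1 - α) ^ (A.card * Δ) := by rw [← pow_mul, mul_comm Δ]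
      _ ≤ α ^ A.card * (1 - α) ^ bd.card :=
          mul_le_mul_of_nonneg_left h4 (pow_nonneg hα0.le _)
  calc ∑ A with Conn G b A, (1 / (4 * ((Δ : ℝ) + 1))) ^ A.card
      ≤ ∑ A with Conn G b A, ∑ S ∈ ev A, w S := Finset.sum_le_sum fun A _ => hlow A
    _ = ∑ S ∈ (Finset.univ.filter fun A => Conn G b A).biUnion ev, w S :=
        (Finset.sum_biUnion hdisj).symm
    _ ≤ ∑ S, w S := Finset.sum_le_sum_of_subset_of_nonneg (Finset.subset_univ _) fun S _ _ => hw0 S
    _ = 1 := hwsum

/-- a given set lies in the core with small probability -/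
lemma prob_core (G : SimpleGraph V) {k d : ℕ} (x : (V → Fin k) → ℝ) (hx0 : ∀ c, 0 ≤ x c)
    {η σ : ℝ} (hη : 0 ≤ η) (hσ0 : 0 ≤ σ) (hσ1 : σ ≤ 1)
    (hdense : ∀ A : Finset V, ∑ c with Dense G d c A, x c ≤ (η * σ) ^ A.card)
    (hcount : ∀ b, ∑ A with Conn G b A, η ^ A.card ≤ 1) :
    ∀ (n : ℕ) (B D : Finset V), B.card = n → Disjoint B D →
      ∑ c with (Dense G d c D ∧ (∀ u ∈ D, ∀ v ∈ core G d c, G.Adj u v → v ∈ D) ∧
        B ⊆ core G d c), x c ≤ (η * σ) ^ D.card * σ ^ B.card := by
  intro n
  induction n using Nat.strong_induction_on with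
  | _ n ih =>
    intro B D hn hBD
    by_cases hB : B.Nonempty
    · obtain ⟨b, hb⟩ := hB
      have hbD : b ∉ D := Finset.disjoint_left.1 hBD hb
      have hub := union_bound x hx0 (Finset.univ.filter fun A => Conn G b A ∧ Disjoint A D)
        (fun c => Dense G d c D ∧ (∀ u ∈ D, ∀ v ∈ core G d c, G.Adj u v → v ∈ D) ∧
          B ⊆ core G d c)
        (fun A c => Dense G d c (D ∪ A) ∧
          (∀ u ∈ D ∪ A, ∀ v ∈ core G d c, G.Adj u v → v ∈ D ∪ A) ∧ B \ A ⊆ core G d c) (by
          rintro c ⟨hD, hcl, hBc⟩
          obtain ⟨A, hA, hAc, hAcl⟩ := exists_comp G b (core G d c) (hBc hb)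
          have hdis : ∀ A' : Finset V, Conn G b A' → A' ⊆ core G d c → Disjoint A' D := by
            intro A' hA'
            induction hA' with
            | base => intro _; simpa using hbD
            | step A0 u v _ hu huv ih' =>
              intro hsub
              have h0 := ih' ((Finset.subset_insert _ _).trans hsub)
              rw [Finset.disjoint_insert_left]
              refine ⟨fun hvD => ?_, h0⟩
              have huD := hcl v hvD u (hsub (Finset.mem_insert_of_mem hu)) huv.symm
              exact Finset.disjoint_left.1 h0 hu huD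
          refine ⟨A, ?_, ?_, ?_, ?_⟩
          · rw [Finset.mem_filter]
            exact ⟨Finset.mem_univ _, hA, hdis A hA hAc⟩
          · exact dense_union hD (dense_of_closed hAc hAcl)
          · intro u hu v hv huv
            rw [Finset.mem_union] at hu ⊢
            rcases hu with hu | hu
            · exact Or.inl (hcl u hu v hv huv)
            · exact Or.inr (hAcl u hu v hv huv)
          · exact Finset.sdiff_subset.trans hBc)
      refine hub.trans ?_
      calc ∑ A with Conn G b A ∧ Disjoint A D, ∑ c with (Dense G d c (D ∪ A) ∧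
              (∀ u ∈ D ∪ A, ∀ v ∈ core G d c, G.Adj u v → v ∈ D ∪ A) ∧ B \ A ⊆ core G d c), x c
          ≤ ∑ A with Conn G b A ∧ Disjoint A D, (η * σ) ^ D.card * σ ^ B.card * η ^ A.card := by
            apply Finset.sum_le_sum
            intro A hA
            rw [Finset.mem_filter] at hA
            obtain ⟨_, hconn, hAD⟩ := hA
            have hbA := conn_mem hconn
            have hlt : (B \ A).card < n := by
              rw [← hn]
              apply Finset.card_lt_card
              rw [Finset.ssubset_iff_of_subset Finset.sdiff_subset]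
              exact ⟨b, hb, by simp [hbA]⟩
            have h1 := ih _ hlt (B \ A) (D ∪ A) rfl (by
              rw [Finset.disjoint_union_right]
              exact ⟨Finset.disjoint_of_subset_left Finset.sdiff_subset hBD,
                Finset.sdiff_disjoint⟩)
            refine h1.trans ?_
            rw [Finset.card_union_of_disjoint hAD.symm]
            have h2 : B.card ≤ A.card + (B \ A).card := by
              have := Finset.card_le_card_sdiff_add_card (s := B) (t := A)
              omega
            have h3 : σ ^ (A.card + (B \ A).card) ≤ σ ^ B.card :=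
              pow_le_pow_of_le_one hσ0 hσ1 h2
            calc (η * σ) ^ (D.card + A.card) * σ ^ (B \ A).card
                = (η * σ) ^ D.card * η ^ A.card * σ ^ (A.card + (B \ A).card) := by
                  rw [pow_add, mul_pow η σ A.card, pow_add σ]; ring
              _ ≤ (η * σ) ^ D.card * η ^ A.card * σ ^ B.card := by
                  apply mul_le_mul_of_nonneg_left h3
                  exact mul_nonneg (pow_nonneg (mul_nonneg hη hσ0) _) (pow_nonneg hη _)
              _ = (η * σ) ^ D.card * σ ^ B.card * η ^ A.card := by ring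
        _ ≤ ∑ A with Conn G b A, (η * σ) ^ D.card * σ ^ B.card * η ^ A.card := by
            apply Finset.sum_le_sum_of_subset_of_nonneg
            · intro A hA
              rw [Finset.mem_filter] at hA ⊢
              exact ⟨hA.1, hA.2.1⟩
            · intro A _ _
              exact mul_nonneg (mul_nonneg (pow_nonneg (mul_nonneg hη hσ0) _)
                (pow_nonneg hσ0 _)) (pow_nonneg hη _)
        _ = (η * σ) ^ D.card * σ ^ B.card * ∑ A with Conn G b A, η ^ A.card := by
            rw [Finset.mul_sum]
        _ ≤ (η * σ) ^ D.card * σ ^ B.card * 1 := by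
            apply mul_le_mul_of_nonneg_left (hcount b)
            exact mul_nonneg (pow_nonneg (mul_nonneg hη hσ0) _) (pow_nonneg hσ0 _)
        _ = (η * σ) ^ D.card * σ ^ B.card := mul_one _
    · rw [Finset.not_nonempty_iff_eq_empty] at hB
      subst hB
      simp only [Finset.card_empty, pow_zero, mul_one]
      refine le_trans ?_ (hdense D)
      apply Finset.sum_le_sum_of_subset_of_nonneg
      · intro c hc
        rw [Finset.mem_filter] at hc ⊢
        exact ⟨hc.1, hc.2.1⟩
      · intro c _ _
        exact hx0 c

end Pool.Agent.Helper40.LD
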