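import Mathlib
import Pool.Agent.Helper40.LD.Dense

set_option autoImplicit false

namespace Pool.Agent.Helper40.LD

open Finset
open scoped Classical

variable {V : Type} {ι : Type}

/-- the end of the coded path (last move first; `none` is an upward move) -/
def st (nb : V → ι → V) (w : V) : List (Option ι) → V × ℕ
  | [] => (w, 0)
  | none :: l => ((st nb w l).1, (st nb w l).2 + 1)
  | some i :: l => (nb (st nb w l).1 i, (st nb w l).2 - 1)

/-- sources of the upward moves of a coded path -/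
noncomputable def ups (nb : V → ι → V) (w : V) : List (Option ι) → Finset (V × ℕ)
  | [] => ∅
  | none :: l => insert (st nb w l) (ups nb w l)
  | some _ :: l => ups nb w l

/-- states reachable in at most `n` moves -/
def Reach (G : SimpleGraph V) (Z : ℕ → Finset V) : ℕ → V → ℕ → Prop
  | 0, _, h => h = 0
  | n + 1, v, h => Reach G Z n v h ∨ (∃ h', h = h' + 1 ∧ Reach G Z n v h' ∧ v ∈ Z h') ∨
      (∃ u, G.Adj u v ∧ Reach G Z n u (h + 1))

/-- states at distance exactly `n` -/
def Exa (G : SimpleGraph V) (Z : ℕ → Finset V) (n : ℕ) (v : V) (h : ℕ) : Prop :=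
  Reach G Z n v h ∧ ∀ m < n, ¬ Reach G Z m v h

lemma reach_height {G : SimpleGraph V} {Z : ℕ → Finset V} :
    ∀ (n : ℕ) (v : V) (h : ℕ), Reach G Z n v h → h ≤ n := by
  intro n
  induction n with
  | zero => intro v h hr; simp only [Reach] at hr; omega
  | succ n ih =>
    intro v h hr
    simp only [Reach] at hr
    rcases hr with hr | ⟨h', rfl, hr, _⟩ | ⟨u, _, hr⟩
    · have := ih v h hr; omega
    · have := ih v h' hr; omega
    · have := ih u (h + 1) hr; omega

lemma exa_pred {G : SimpleGraph V} {Z : ℕ → Finset V} {n : ℕ} {v : V} {h : ℕ}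
    (hE : Exa G Z (n + 1) v h) :
    (∃ h', h = h' + 1 ∧ Exa G Z n v h' ∧ v ∈ Z h') ∨ (∃ u, G.Adj u v ∧ Exa G Z n u (h + 1)) := by
  obtain ⟨h1, h2⟩ := hE
  simp only [Reach] at h1
  rcases h1 with h1 | ⟨h', rfl, h1, h3⟩ | ⟨u, huv, h1⟩
  · exact absurd h1 (h2 n (by omega))
  · refine Or.inl ⟨h', rfl, ⟨h1, fun m hm hr => h2 (m + 1) (by omega) ?_⟩, h3⟩
    simp only [Reach]
    exact Or.inr (Or.inl ⟨h', rfl, hr, h3⟩)
  · refine Or.inr ⟨u, huv, h1, fun m hm hr => h2 (m + 1) (by omega) ?_⟩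
    simp only [Reach]
    exact Or.inr (Or.inr ⟨u, huv, hr⟩)

lemma exa_descend {G : SimpleGraph V} {Z : ℕ → Finset V} (m : ℕ) :
    ∀ (j : ℕ) (v : V) (h : ℕ), Exa G Z (m + j) v h → ∃ v' h', Exa G Z m v' h' := by
  intro j
  induction j with
  | zero => intro v h hE; exact ⟨v, h, hE⟩
  | succ j ih =>
    intro v h hE
    rcases exa_pred (n := m + j) hE with ⟨h', _, h1, _⟩ | ⟨u, _, h1⟩
    · exact ih _ _ h1
    · exact ih _ _ h1

lemma exa_code {G : SimpleGraph V} {Z : ℕ → Finset V} (nb : V → ι → V)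
    (hnb : ∀ u v, G.Adj u v → ∃ i, nb u i = v) :
    ∀ (n : ℕ) (v : V) (h : ℕ), Exa G Z n v h → ∃ (w : V) (l : List (Option ι)), l.length = n ∧
      st nb w l = (v, h) ∧ (∀ t ∈ ups nb w l, t.1 ∈ Z t.2) ∧
      (∀ t ∈ ups nb w l, ∃ m < n, Reach G Z m t.1 t.2) ∧ 2 * (ups nb w l).card = n + h := by
  intro n
  induction n with
  | zero =>
    intro v h hE
    have h0 : h = 0 := by
      have := hE.1
      simpa only [Reach] using this
    subst h0
    exact ⟨v, [], rfl, rfl, by simp [ups], by simp [ups], by simp [ups]⟩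
  | succ n ih =>
    intro v h hE
    rcases exa_pred hE with ⟨h', rfl, h1, h2⟩ | ⟨u, huv, h1⟩
    · obtain ⟨w, l, e1, e2, e3, e4, e5⟩ := ih v h' h1
      have hnot : st nb w l ∉ ups nb w l := by
        intro hmem
        obtain ⟨m, hm, hr⟩ := e4 _ hmem
        rw [e2] at hr
        exact h1.2 m hm hr
      refine ⟨w, none :: l, by simp [e1], by simp [st, e2], ?_, ?_, ?_⟩
      · intro t ht
        simp only [ups, Finset.mem_insert] at ht
        rcases ht with rfl | ht
        · rw [e2]; exact h2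
        · exact e3 t ht
      · intro t ht
        simp only [ups, Finset.mem_insert] at ht
        rcases ht with rfl | ht
        · rw [e2]; exact ⟨n, by omega, h1.1⟩
        · obtain ⟨m, hm, hr⟩ := e4 t ht
          exact ⟨m, by omega, hr⟩
      · simp only [ups]
        rw [Finset.card_insert_of_notMem hnot]
        omega
    · obtain ⟨w, l, e1, e2, e3, e4, e5⟩ := ih u (h + 1) h1
      obtain ⟨i, hi⟩ := hnb u v huv
      refine ⟨w, some i :: l, by simp [e1], by simp [st, e2, hi], ?_, ?_, ?_⟩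
      · intro t ht
        exact e3 t ht
      · intro t ht
        obtain ⟨m, hm, hr⟩ := e4 t ht
        exact ⟨m, by omega, hr⟩
      · simp only [ups]
        omega

lemma prod_bound {C : Type} [Fintype V] [Fintype C] (x : C → ℝ) (hx0 : ∀ c, 0 ≤ x c)
    (Z : C → Finset V) {σ : ℝ} (hσ0 : 0 ≤ σ)
    (hZ : ∀ B : Finset V, ∑ c with B ⊆ Z c, x c ≤ σ ^ B.card) (N : ℕ) (U : Finset (V × ℕ)) :
    ∑ f : Fin N → C with (∀ t ∈ U, ∃ hh : t.2 < N, t.1 ∈ Z (f ⟨t.2, hh⟩)), ∏ h, x (f h)
      ≤ σ ^ U.card := by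
  by_cases hU : ∀ t ∈ U, t.2 < N
  · set B : Fin N → Finset V := fun h => Finset.univ.filter fun v => (v, (h : ℕ)) ∈ U with hB
    have hcard : ∑ h, (B h).card = U.card := by
      rw [← Finset.card_sigma]
      apply Finset.card_bij (fun (p : (_ : Fin N) × V) _ => (p.2, (p.1 : ℕ)))
      · rintro ⟨h, v⟩ hp
        simpa [hB] using hp
      · rintro ⟨h, v⟩ _ ⟨h', v'⟩ _ heq
        simp only [Prod.mk.injEq] at heq
        obtain ⟨rfl, h2⟩ := heq
        have : h = h' := Fin.ext h2
        subst this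
        rfl
      · rintro ⟨v, h⟩ ht
        exact ⟨⟨⟨h, hU _ ht⟩, v⟩, by simpa [hB] using ht, rfl⟩
    calc ∑ f : Fin N → C with (∀ t ∈ U, ∃ hh : t.2 < N, t.1 ∈ Z (f ⟨t.2, hh⟩)), ∏ h, x (f h)
        ≤ ∑ f ∈ Fintype.piFinset (fun h => Finset.univ.filter fun c => B h ⊆ Z c),
            ∏ h, x (f h) := by
          apply Finset.sum_le_sum_of_subset_of_nonneg
          · intro f hf
            rw [Finset.mem_filter] at hf
            rw [Fintype.mem_piFinset]
            intro h
            rw [Finset.mem_filter]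
            refine ⟨Finset.mem_univ _, fun v hv => ?_⟩
            rw [hB, Finset.mem_filter] at hv
            obtain ⟨_, h1⟩ := hf.2 _ hv.2
            exact h1
          · intro f _ _
            exact Finset.prod_nonneg fun h _ => hx0 _
      _ = ∏ h, ∑ c with B h ⊆ Z c, x c := (Finset.prod_univ_sum _ _).symm
      _ ≤ ∏ h, σ ^ (B h).card :=
          Finset.prod_le_prod (fun h _ => Finset.sum_nonneg fun c _ => hx0 c) fun h _ => hZ _
      _ = σ ^ U.card := by rw [Finset.prod_pow_eq_pow_sum, hcard]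
  · push Not at hU
    obtain ⟨t, ht, htN⟩ := hU
    have : (Finset.univ.filter fun f : Fin N → C =>
        ∀ t ∈ U, ∃ hh : t.2 < N, t.1 ∈ Z (f ⟨t.2, hh⟩)) = ∅ := by
      rw [Finset.filter_eq_empty_iff]
      intro f _ h
      obtain ⟨hh, _⟩ := h t ht
      omega
    rw [this, Finset.sum_empty]
    exact pow_nonneg hσ0 _

/-- **Lipschitz percolation.**  If `Z` is a random set of vertices containing every given set `B` with
probability at most `σ ^ |B|`, where `σ ≤ 1 / (2 (Δ + 1) ^ 2)`, then there are finitely many values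
`Z (f 0), Z (f 1), …` of the random set and a choice of an index for every vertex, such that no vertex
lies in its set and the indices of neighbours differ by at most one. -/
theorem lipschitz {C : Type} [Fintype V] [Fintype C] (G : SimpleGraph V) {Δ : ℕ}
    (hΔ : ∀ v, (G.neighborFinset v).card ≤ Δ) (x : C → ℝ) (hx0 : ∀ c, 0 ≤ x c)
    (hx1 : ∑ c, x c = 1) (Z : C → Finset V) {σ : ℝ} (hσ0 : 0 ≤ σ)
    (hσ : ((Δ : ℝ) + 1) ^ 2 * σ ≤ 1 / 2)
    (hZ : ∀ B : Finset V, ∑ c with B ⊆ Z c, x c ≤ σ ^ B.card) :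
    ∃ (N : ℕ) (f : Fin N → C) (i : V → Fin N), (∀ v, v ∉ Z (f (i v))) ∧
      ∀ u v, G.Adj u v → (i u : ℕ) ≤ i v + 1 := by
  -- enumerations of the neighbourhoods
  let nb : V → Fin Δ → V := fun v i => (G.neighborFinset v).toList.getD i v
  have hnb : ∀ u v, G.Adj u v → ∃ i, nb u i = v := by
    intro u v huv
    have hmem : v ∈ (G.neighborFinset u).toList := by simpa using huv
    obtain ⟨j, hj, hjv⟩ := List.getElem_of_mem hmem
    have hjΔ : j < Δ := by
      rw [Finset.length_toList] at hj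
      exact lt_of_lt_of_le hj (hΔ u)
    refine ⟨⟨j, hjΔ⟩, ?_⟩
    simp only [nb]
    rw [List.getD_eq_getElem _ _ hj]
    exact hjv
  obtain ⟨L, hL⟩ : ∃ L : ℕ, Fintype.card V < 2 ^ L := ⟨Fintype.card V, Nat.lt_two_pow_self⟩
  set N : ℕ := 2 * L with hN
  have hσ1 : σ ≤ 1 := by
    have h1 : (1 : ℝ) ≤ ((Δ : ℝ) + 1) ^ 2 := by
      have : (0 : ℝ) ≤ Δ := Nat.cast_nonneg _
      nlinarith
    nlinarith
  let Zf : (Fin N → C) → ℕ → Finset V := fun f h => if hh : h < N then Z (f ⟨h, hh⟩) else ∅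
  have hZf : ∀ f h v, v ∈ Zf f h ↔ ∃ hh : h < N, v ∈ Z (f ⟨h, hh⟩) := by
    intro f h v
    simp only [Zf]
    split_ifs with hh
    · exact ⟨fun h1 => ⟨hh, h1⟩, fun ⟨_, h1⟩ => h1⟩
    · exact ⟨fun h1 => by simp at h1, fun ⟨h1, _⟩ => absurd h1 hh⟩
  -- the bad event is unlikely
  have hgood : ∃ f : Fin N → C, ¬ ∃ v n, Reach G (Zf f) n v N := by
    by_contra hcon
    push Not at hcon
    have hub := union_bound (fun f : Fin N → C => ∏ h, x (f h))
      (fun f => Finset.prod_nonneg fun h _ => hx0 _)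
      ((Finset.univ : Finset (V × List.Vector (Option (Fin Δ)) N)).filter fun p =>
        L ≤ (ups nb p.1 p.2.toList).card)
      (fun _ => True)
      (fun p f => ∀ t ∈ ups nb p.1 p.2.toList, ∃ hh : t.2 < N, t.1 ∈ Z (f ⟨t.2, hh⟩)) (by
        intro f _
        obtain ⟨v, n, hr⟩ := hcon f
        -- take the least number of moves
        obtain ⟨n0, hn0, hmin⟩ : ∃ n0, Reach G (Zf f) n0 v N ∧ ∀ m < n0, ¬ Reach G (Zf f) m v N := by
          have hex : ∃ n, Reach G (Zf f) n v N := ⟨n, hr⟩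
          exact ⟨Nat.find hex, Nat.find_spec hex, fun m hm => Nat.find_min hex hm⟩
        have hNn := reach_height _ _ _ hn0
        obtain ⟨j, rfl⟩ : ∃ j, n0 = N + j := ⟨n0 - N, by omega⟩
        obtain ⟨v', h', hE⟩ := exa_descend N j v N ⟨hn0, hmin⟩
        obtain ⟨w, l, e1, _, e3, _, e5⟩ := exa_code nb hnb N v' h' hE
        refine ⟨(w, ⟨l, e1⟩), ?_, ?_⟩
        · rw [Finset.mem_filter]
          refine ⟨Finset.mem_univ _, ?_⟩
          show L ≤ (ups nb w l).card
          omega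
        · intro t ht
          exact (hZf f t.2 t.1).1 (e3 t ht))
    have htot : ∑ f : Fin N → C with True, ∏ h, x (f h) = 1 := by
      rw [Finset.filter_true_of_mem (fun _ _ => trivial)]
      rw [← Fintype.piFinset_univ, ← Finset.prod_univ_sum]
      simp [hx1]
    rw [htot] at hub
    have h2 : ∑ p ∈ (Finset.univ : Finset (V × List.Vector (Option (Fin Δ)) N)).filter (fun p =>
        L ≤ (ups nb p.1 p.2.toList).card), ∑ f : Fin N → C with
          (∀ t ∈ ups nb p.1 p.2.toList, ∃ hh : t.2 < N, t.1 ∈ Z (f ⟨t.2, hh⟩)), ∏ h, x (f h)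
        ≤ (Fintype.card V : ℝ) * (((Δ : ℝ) + 1) ^ 2 * σ) ^ L := by
      calc _ ≤ ∑ p ∈ (Finset.univ : Finset (V × List.Vector (Option (Fin Δ)) N)).filter (fun p =>
            L ≤ (ups nb p.1 p.2.toList).card), σ ^ L := by
            apply Finset.sum_le_sum
            intro p hp
            rw [Finset.mem_filter] at hp
            exact (prod_bound x hx0 Z hσ0 hZ N _).trans (pow_le_pow_of_le_one hσ0 hσ1 hp.2)
        _ ≤ ∑ p : V × List.Vector (Option (Fin Δ)) N, σ ^ L :=
            Finset.sum_le_sum_of_subset_of_nonneg (Finset.filter_subset _ _)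
              fun _ _ _ => pow_nonneg hσ0 _
        _ = (Fintype.card V : ℝ) * (((Δ : ℝ) + 1) ^ 2 * σ) ^ L := by
            rw [Finset.sum_const, Finset.card_univ, Fintype.card_prod, card_vector,
              Fintype.card_option, Fintype.card_fin, nsmul_eq_mul, hN, pow_mul, mul_pow]
            push_cast
            ring
    have h3 : (Fintype.card V : ℝ) * (((Δ : ℝ) + 1) ^ 2 * σ) ^ L < 1 := by
      have h4 : (((Δ : ℝ) + 1) ^ 2 * σ) ^ L ≤ (1 / 2) ^ L :=
        pow_le_pow_left₀ (by positivity) hσ _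
      have h5 : (Fintype.card V : ℝ) < 2 ^ L := by exact_mod_cast hL
      calc (Fintype.card V : ℝ) * (((Δ : ℝ) + 1) ^ 2 * σ) ^ L
          ≤ (Fintype.card V : ℝ) * (1 / 2) ^ L :=
            mul_le_mul_of_nonneg_left h4 (Nat.cast_nonneg _)
        _ < 2 ^ L * (1 / 2) ^ L := mul_lt_mul_of_pos_right h5 (by positivity)
        _ = 1 := by rw [← mul_pow]; norm_num
    linarith
  obtain ⟨f, hf⟩ := hgood
  -- heights
  let R : V → ℕ → Prop := fun v h => ∃ n, Reach G (Zf f) n v h
  have hR0 : ∀ v, R v 0 := fun v => ⟨0, rfl⟩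
  have hRup : ∀ v h, R v h → v ∈ Zf f h → R v (h + 1) := by
    rintro v h ⟨n, hn⟩ hv
    refine ⟨n + 1, ?_⟩
    simp only [Reach]
    exact Or.inr (Or.inl ⟨h, rfl, hn, hv⟩)
  have hRdown : ∀ u v h, G.Adj u v → R u (h + 1) → R v h := by
    rintro u v h huv ⟨n, hn⟩
    refine ⟨n + 1, ?_⟩
    simp only [Reach]
    exact Or.inr (Or.inr ⟨u, huv, hn⟩)
  let H : V → ℕ := fun v => Nat.findGreatest (R v) N
  have hHR : ∀ v, R v (H v) := fun v => Nat.findGreatest_spec (P := R v) (Nat.zero_le N) (hR0 v)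
  have hHN : ∀ v, H v < N := by
    intro v
    refine lt_of_le_of_ne (Nat.findGreatest_le N) ?_
    intro h
    have := hHR v
    rw [h] at this
    exact hf ⟨v, this⟩
  refine ⟨N, f, fun v => ⟨H v, hHN v⟩, ?_, ?_⟩
  · intro v hv
    have h1 := hRup v (H v) (hHR v) ((hZf f (H v) v).2 ⟨hHN v, hv⟩)
    have h2 := Nat.le_findGreatest (hHN v) h1
    simp only [H] at h2
    omega
  · intro u v huv
    show H u ≤ H v + 1
    by_contra hcon
    push Not at hcon
    obtain ⟨j, hj⟩ : ∃ j, H u = j + 1 := ⟨H u - 1, by omega⟩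
    have h1 := hHR u
    rw [hj] at h1
    have h2 := hRdown u v j huv h1
    have h3 : j ≤ N := by
      have := hHN u
      omega
    have h4 := Nat.le_findGreatest h3 h2
    simp only [H] at hcon hj h4
    omega

end Pool.Agent.Helper40.LD
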