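import Mathlib
import Pool.Agent.Helper40.LD.Cluster
import Pool.Agent.Helper40.LD.Lip

set_option autoImplicit false

namespace Pool.Agent.Helper40.LD

open Finset Pool.Agent.Helper70
open scoped Classical

/-- A graph of maximum degree at most `Δ` with a random colouring for which every given set is dense
with small probability has small chromatic number. -/
theorem colorable_of_dense_bound {k d Δ : ℕ} (hd1 : 1 ≤ d) {U : Type} [Fintype U]
    (F : SimpleGraph U) (hΔ : ∀ v, (F.neighborFinset v).card ≤ Δ) (x : (U → Fin k) → ℝ)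
    (hx0 : ∀ c, 0 ≤ x c) (hx1 : ∑ c, x c = 1)
    (hdense : ∀ A : Finset U, ∑ c with Dense F d c A, x c ≤ (1 / (8 * ((Δ : ℝ) + 1) ^ 3)) ^ A.card) :
    F.Colorable (4 * k * d) := by
  have hΔ0 : (0 : ℝ) ≤ Δ := Nat.cast_nonneg _
  set η : ℝ := 1 / (4 * ((Δ : ℝ) + 1)) with hη
  set σ : ℝ := 1 / (2 * ((Δ : ℝ) + 1) ^ 2) with hσ
  have hη0 : 0 ≤ η := by positivity
  have hσ0 : 0 ≤ σ := by positivity
  have hσ1 : σ ≤ 1 := by
    rw [hσ, div_le_one (by positivity)]
    nlinarith
  have hσ2 : ((Δ : ℝ) + 1) ^ 2 * σ ≤ 1 / 2 := by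
    rw [hσ]
    field_simp
    exact le_refl _
  have hησ : (1 / (8 * ((Δ : ℝ) + 1) ^ 3)) = η * σ := by
    rw [hη, hσ]
    field_simp
    norm_num
  rw [hησ] at hdense
  have hcore := prob_core F x hx0 hη0 hσ0 hσ1 hdense (conn_count F hΔ)
  have hZ : ∀ B : Finset U, ∑ c with B ⊆ core F d c, x c ≤ σ ^ B.card := by
    intro B
    have h1 := hcore _ B ∅ rfl (by simp)
    simp only [Finset.card_empty, pow_zero, one_mul] at h1
    refine le_trans (le_of_eq (Finset.sum_congr ?_ fun _ _ => rfl)) h1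
    ext c
    simp [Dense]
  obtain ⟨N, f, i, hi1, hi2⟩ := lipschitz F hΔ x hx0 hx1 (core F d) hσ0 hσ2 hZ
  choose g hg using fun h : Fin N => exists_degen F hd1 (f h)
  let C : F.Coloring (Fin 2 × Fin k × Fin (2 * d)) :=
    SimpleGraph.Coloring.mk
      (fun v => (⟨(i v : ℕ) % 2, Nat.mod_lt _ (by norm_num)⟩, f (i v) v, g (i v) v)) (by
        intro u v huv heq
        simp only [Prod.mk.injEq, Fin.mk.injEq] at heq
        obtain ⟨h1, h2, h3⟩ := heq
        have h4 := hi2 u v huv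
        have h5 := hi2 v u huv.symm
        have h6 : i u = i v := Fin.ext (by omega)
        rw [h6] at h2 h3
        have hu := hi1 u
        rw [h6] at hu
        exact hg (i v) u v hu (hi1 v) huv h2 h3)
  have hcol := C.colorable
  have hcard : Fintype.card (Fin 2 × Fin k × Fin (2 * d)) = 4 * k * d := by
    simp only [Fintype.card_prod, Fintype.card_fin]
    ring
  rwa [hcard] at hcol

section Blow

variable {U V : Type} [Fintype U] [Fintype V]

/-- the most popular colour on the fibre over `X` -/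
lemma exists_pop {k a : ℕ} (hk : 1 ≤ k) (φ : U × Fin a ↪ V) (c : V → Fin k) (X : U) :
    ∃ κ : Fin k, a ≤ k * (Finset.univ.filter fun i : Fin a => c (φ (X, i)) = κ).card := by
  by_contra hcon
  push Not at hcon
  have h1 : ∑ κ : Fin k, (Finset.univ.filter fun i : Fin a => c (φ (X, i)) = κ).card = a := by
    rw [← Finset.card_eq_sum_card_fiberwise (f := fun i : Fin a => c (φ (X, i)))
      (s := Finset.univ) (t := Finset.univ) (by intro i _; simp)]
    simp
  have hne : (Finset.univ : Finset (Fin k)).Nonempty := ⟨⟨0, hk⟩, Finset.mem_univ _⟩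
  have h2 : ∑ κ : Fin k, k * (Finset.univ.filter fun i : Fin a => c (φ (X, i)) = κ).card
      < ∑ _κ : Fin k, a := Finset.sum_lt_sum_of_nonempty hne fun κ _ => hcon κ
  rw [← Finset.mul_sum, h1, Finset.sum_const, Finset.card_univ, Fintype.card_fin,
    smul_eq_mul] at h2
  exact lt_irrefl _ h2

/-- the colouring of `U` by popular colours -/
noncomputable def pop {k a : ℕ} (hk : 1 ≤ k) (φ : U × Fin a ↪ V) (c : V → Fin k) (X : U) : Fin k :=
  (exists_pop hk φ c X).choose

/-- the popular part of a union of fibres -/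
noncomputable def lift {k a : ℕ} (hk : 1 ≤ k) (φ : U × Fin a ↪ V) (c : V → Fin k)
    (A : Finset U) : Finset V :=
  ((Finset.univ : Finset (U × Fin a)).filter fun p => p.1 ∈ A ∧ c (φ p) = pop hk φ c p.1).map φ

lemma pop_card {k a a0 : ℕ} (hk : 1 ≤ k) (ha0 : ∀ t : ℕ, a ≤ k * t → a0 ≤ t)
    (φ : U × Fin a ↪ V) (c : V → Fin k) (X : U) :
    a0 ≤ (Finset.univ.filter fun i : Fin a => c (φ (X, i)) = pop hk φ c X).card :=
  ha0 _ (exists_pop hk φ c X).choose_spec

lemma fibre_card {a : ℕ} (A : Finset U) (P : U × Fin a → Prop) [DecidablePred P] (a0 : ℕ)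
    (h : ∀ X ∈ A, a0 ≤ (Finset.univ.filter fun i : Fin a => P (X, i)).card) :
    A.card * a0 ≤ ((Finset.univ : Finset (U × Fin a)).filter fun p => p.1 ∈ A ∧ P p).card := by
  have h1 : ((Finset.univ : Finset (U × Fin a)).filter fun p => p.1 ∈ A ∧ P p).card
      = ∑ X ∈ A, (Finset.univ.filter fun i : Fin a => P (X, i)).card := by
    rw [Finset.card_eq_sum_card_fiberwise (f := Prod.fst) (t := A)
      (by intro p hp; exact (Finset.mem_filter.1 hp).2.1)]
    refine Finset.sum_congr rfl fun X hX => ?_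
    rw [← Finset.card_map (⟨fun i : Fin a => (X, i), fun i j h => by simpa using h⟩ :
      Fin a ↪ U × Fin a)]
    congr 1
    ext ⟨Y, j⟩
    simp only [Finset.mem_filter, Finset.mem_univ, true_and, Finset.mem_map,
      Function.Embedding.coeFn_mk, Prod.mk.injEq]
    constructor
    · rintro ⟨⟨_, h2⟩, rfl⟩
      exact ⟨j, h2, rfl, rfl⟩
    · rintro ⟨j', h2, rfl, rfl⟩
      exact ⟨⟨hX, h2⟩, rfl⟩
  rw [h1, ← smul_eq_mul, ← Finset.sum_const]
  exact Finset.sum_le_sum h

lemma lift_card {k a a0 : ℕ} (hk : 1 ≤ k) (ha0 : ∀ t : ℕ, a ≤ k * t → a0 ≤ t)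
    (φ : U × Fin a ↪ V) (c : V → Fin k) (A : Finset U) :
    A.card * a0 ≤ (lift hk φ c A).card := by
  unfold lift
  rw [Finset.card_map]
  exact fibre_card A (fun p => c (φ p) = pop hk φ c p.1) a0 fun X _ => pop_card hk ha0 φ c X

lemma lift_dense {k a a0 d : ℕ} (hk : 1 ≤ k) (ha0 : ∀ t : ℕ, a ≤ k * t → a0 ≤ t)
    (F : SimpleGraph U) (G : SimpleGraph V) (φ : U × Fin a ↪ V)
    (hφ : ∀ X Y i j, F.Adj X Y → G.Adj (φ (X, i)) (φ (Y, j))) (c : V → Fin k) (A : Finset U)
    (hA : Dense F d (pop hk φ c) A) : Dense G (d * a0) c (lift hk φ c A) := by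
  intro v hv
  unfold lift at hv
  rw [Finset.mem_map] at hv
  obtain ⟨⟨X, i⟩, hXi, rfl⟩ := hv
  simp only [Finset.mem_filter, Finset.mem_univ, true_and] at hXi
  have h1 := hA X hXi.1
  have h2 := fibre_card (A.filter fun u => F.Adj u X ∧ pop hk φ c u = pop hk φ c X)
    (fun p => c (φ p) = pop hk φ c p.1) a0 fun Y _ => pop_card hk ha0 φ c Y
  have h3 : (((Finset.univ : Finset (U × Fin a)).filter fun p =>
      p.1 ∈ (A.filter fun u => F.Adj u X ∧ pop hk φ c u = pop hk φ c X) ∧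
        c (φ p) = pop hk φ c p.1).map φ) ⊆
      (lift hk φ c A).filter fun u => G.Adj u (φ (X, i)) ∧ c u = c (φ (X, i)) := by
    intro v hv
    rw [Finset.mem_map] at hv
    obtain ⟨⟨Y, j⟩, hYj, rfl⟩ := hv
    simp only [Finset.mem_filter, Finset.mem_univ, true_and] at hYj
    obtain ⟨⟨h4, h5, h6⟩, h7⟩ := hYj
    rw [Finset.mem_filter]
    refine ⟨?_, hφ Y X j i h5, ?_⟩
    · unfold lift
      rw [Finset.mem_map]
      exact ⟨(Y, j), by simp [h4, h7], rfl⟩
    · rw [h7, h6, hXi.2]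
  have h4 := Finset.card_le_card h3
  rw [Finset.card_map] at h4
  calc 2 * (d * a0) = 2 * d * a0 := by ring
    _ ≤ (A.filter fun u => F.Adj u X ∧ pop hk φ c u = pop hk φ c X).card * a0 :=
        Nat.mul_le_mul_right _ h1
    _ ≤ _ := h2.trans h4

/-- **Main theorem.**  Let `F` have maximum degree at most `Δ` and let `G` contain the `a`-fold blow-up
of `F`.  If Maker does not win on `G`, then the chromatic number of `F` is small. -/
theorem colorable_of_not_makerWins {b k Δ a : ℕ} (hb : 1 ≤ b) (hk : 1 ≤ k) (ha : 1 ≤ a)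
    (F : SimpleGraph U) (G : SimpleGraph V) (φ : U × Fin a ↪ V)
    (hφ : ∀ X Y i j, F.Adj X Y → G.Adj (φ (X, i)) (φ (Y, j)))
    (hΔ : ∀ v, (F.neighborFinset v).card ≤ Δ)
    (hlose : ¬ MakerWins G b (chiGoal (k + 1)) ∅ ∅) :
    F.Colorable (4 * k *
      ⌈b * Real.logb 2 (8 * (k : ℝ) ^ a * ((Δ : ℝ) + 1) ^ 3) / (⌈(a : ℝ) / k⌉₊ : ℝ) ^ 2⌉₊) := by
  obtain ⟨x, hx0, hx1, hsp⟩ := exists_spread_coloring G (k := k) hb hlose
  have hb0 : (0 : ℝ) < b := by exact_mod_cast hb
  have hk0 : (1 : ℝ) ≤ k := by exact_mod_cast hk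
  have ha1 : (1 : ℝ) ≤ a := by exact_mod_cast ha
  have hΔ0 : (0 : ℝ) ≤ Δ := Nat.cast_nonneg _
  have hlog2 : 0 < Real.log 2 := Real.log_pos (by norm_num)
  set a0 : ℕ := ⌈(a : ℝ) / k⌉₊ with ha0
  have ha01 : 1 ≤ a0 := by
    rw [ha0, Nat.one_le_iff_ne_zero, Ne, Nat.ceil_eq_zero, not_le]
    positivity
  have ha01' : (1 : ℝ) ≤ a0 := by exact_mod_cast ha01
  have ha0t : ∀ t : ℕ, a ≤ k * t → a0 ≤ t := by
    intro t ht
    rw [ha0, Nat.ceil_le, div_le_iff₀ (by linarith)]
    have : (a : ℝ) ≤ k * t := by exact_mod_cast ht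
    linarith
  have hΔ3 : (1 : ℝ) ≤ ((Δ : ℝ) + 1) ^ 3 := one_le_pow₀ (by linarith)
  have hka : (1 : ℝ) ≤ (k : ℝ) ^ a := one_le_pow₀ hk0
  set M : ℝ := 8 * (k : ℝ) ^ a * ((Δ : ℝ) + 1) ^ 3 with hM
  have hM8 : 8 ≤ M := by
    rw [hM]
    nlinarith
  set d : ℕ := ⌈b * Real.logb 2 M / (a0 : ℝ) ^ 2⌉₊ with hd
  have hlogM : 0 < Real.log M := Real.log_pos (by linarith)
  have hd1 : 1 ≤ d := by
    rw [hd]
    apply Nat.one_le_iff_ne_zero.2
    rw [Ne, Nat.ceil_eq_zero, not_le]
    exact div_pos (mul_pos hb0 (div_pos hlogM hlog2)) (by positivity)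
  have hq1 : 1 < qq b := by
    unfold qq
    rw [Real.one_lt_exp_iff]
    positivity
  have hq0 : 0 < qq b := by linarith
  have hqd : M ≤ qq b ^ (d * a0 * a0) := by
    have h1 : b * (Real.log M / Real.log 2) / (a0 : ℝ) ^ 2 ≤ d := Nat.le_ceil _
    rw [div_le_iff₀ (by positivity)] at h1
    have h2 : Real.log M ≤ ((d * a0 * a0 : ℕ) : ℝ) * (Real.log 2 / b) := by
      have h3 : b * (Real.log M / Real.log 2) * (Real.log 2 / b)
          ≤ (d * (a0 : ℝ) ^ 2) * (Real.log 2 / b) :=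
        mul_le_mul_of_nonneg_right h1 (by positivity)
      have h4 : b * (Real.log M / Real.log 2) * (Real.log 2 / b) = Real.log M := by
        field_simp
      rw [h4] at h3
      push_cast
      calc Real.log M ≤ d * (a0 : ℝ) ^ 2 * (Real.log 2 / b) := h3
        _ = d * a0 * a0 * (Real.log 2 / b) := by ring
    calc M = Real.exp (Real.log M) := (Real.exp_log (by linarith)).symm
      _ ≤ Real.exp (((d * a0 * a0 : ℕ) : ℝ) * (Real.log 2 / b)) := Real.exp_le_exp.2 h2
      _ = qq b ^ (d * a0 * a0) := by unfold qq; rw [← Real.exp_nat_mul]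
  -- the distribution of the popular colouring
  set x' : (U → Fin k) → ℝ := fun c' => ∑ c with pop hk φ c = c', x c with hx'
  have hpush : ∀ P : (U → Fin k) → Prop, ∑ c' with P c', x' c' = ∑ c with P (pop hk φ c), x c := by
    intro P
    rw [hx', ← Finset.sum_fiberwise_of_maps_to
      (s := Finset.univ.filter fun c : V → Fin k => P (pop hk φ c))
      (t := Finset.univ.filter fun c' : U → Fin k => P c')
      (g := pop hk φ) (by intro c hc; simpa using hc)]
    refine Finset.sum_congr rfl fun c' hc' => ?_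
    refine Finset.sum_congr ?_ fun _ _ => rfl
    ext c
    simp only [Finset.mem_filter, Finset.mem_univ, true_and] at hc' ⊢
    constructor
    · rintro rfl; exact ⟨hc', rfl⟩
    · rintro ⟨_, h⟩; exact h
  have hx'0 : ∀ c', 0 ≤ x' c' := fun c' => Finset.sum_nonneg fun c _ => hx0 c
  have hx'1 : ∑ c', x' c' = 1 := by
    rw [hx', Finset.sum_fiberwise, hx1]
  apply colorable_of_dense_bound hd1 F hΔ x' hx'0 hx'1
  intro A
  rw [hpush]
  -- the fibres over `A`
  set Y : Finset V := ((Finset.univ : Finset (U × Fin a)).filter fun p => p.1 ∈ A).map φ with hY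
  have hYcard : Y.card = a * A.card := by
    rw [hY, Finset.card_map]
    have : ((Finset.univ : Finset (U × Fin a)).filter fun p => p.1 ∈ A) = A ×ˢ Finset.univ := by
      ext ⟨X, i⟩; simp
    rw [this, Finset.card_product, Finset.card_univ, Fintype.card_fin, mul_comm]
  have hmom := exp_moment G hq0 x hx0 (by convert hsp) Y
  have hsub : ∀ c : V → Fin k, lift hk φ c A ⊆ Y := by
    intro c
    unfold lift
    rw [hY]
    apply Finset.map_subset_map.2
    intro p hp
    rw [Finset.mem_filter] at hp ⊢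
    exact ⟨hp.1, hp.2.1⟩
  have hedge : ∀ c : V → Fin k, Dense F d (pop hk φ c) A →
      d * a0 * a0 * A.card ≤ (monoX G Y c).card := by
    intro c hc
    have h1 := dense_edges G c (lift hk φ c A) (lift_dense hk ha0t F G φ hφ c A hc)
    have h2 := lift_card hk ha0t φ c A
    have h3 : monoX G (lift hk φ c A) c ⊆ monoX G Y c := by
      intro e
      induction e using Sym2.ind with
      | _ u v =>
        rw [mk_mem_monoX, mk_mem_monoX]
        rintro ⟨h4, h5, h6⟩
        exact ⟨h4, hsub c h5, hsub c h6⟩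
    calc d * a0 * a0 * A.card = d * a0 * (A.card * a0) := by ring
      _ ≤ d * a0 * (lift hk φ c A).card := Nat.mul_le_mul_left _ h2
      _ ≤ _ := h1.trans (Finset.card_le_card h3)
  have hmain : (∑ c with Dense F d (pop hk φ c) A, x c) * qq b ^ (d * a0 * a0 * A.card)
      ≤ (k : ℝ) ^ (a * A.card) := by
    rw [← hYcard]
    refine le_trans ?_ hmom
    rw [Finset.sum_mul]
    calc ∑ c with Dense F d (pop hk φ c) A, x c * qq b ^ (d * a0 * a0 * A.card)
        ≤ ∑ c with Dense F d (pop hk φ c) A, x c * qq b ^ (monoX G Y c).card := by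
          apply Finset.sum_le_sum
          intro c hc
          apply mul_le_mul_of_nonneg_left _ (hx0 c)
          exact pow_le_pow_right₀ hq1.le (hedge c (Finset.mem_filter.1 hc).2)
      _ ≤ ∑ c, x c * qq b ^ (monoX G Y c).card := by
          apply Finset.sum_le_sum_of_subset_of_nonneg (Finset.filter_subset _ _)
          intro c _ _
          exact mul_nonneg (hx0 c) (pow_nonneg hq0.le _)
  have hpos : 0 < qq b ^ (d * a0 * a0) := pow_pos hq0 _
  calc ∑ c with Dense F d (pop hk φ c) A, x c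
      ≤ (k : ℝ) ^ (a * A.card) / qq b ^ (d * a0 * a0 * A.card) := by
        rw [le_div_iff₀ (pow_pos hq0 _)]
        exact hmain
    _ = ((k : ℝ) ^ a / qq b ^ (d * a0 * a0)) ^ A.card := by
        rw [pow_mul, pow_mul, div_pow]
    _ ≤ (1 / (8 * ((Δ : ℝ) + 1) ^ 3)) ^ A.card := by
        apply pow_le_pow_left₀ (by positivity)
        rw [div_le_div_iff₀ hpos (by positivity), one_mul]
        calc (k : ℝ) ^ a * (8 * ((Δ : ℝ) + 1) ^ 3) = M := by rw [hM]; ring
          _ ≤ _ := hqd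

end Blow

end Pool.Agent.Helper40.LD
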